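import Pool.Agent.Helper83.CO.St
import Pool.Agent.Helper53.CX.St

/-!
# Project CO (MP_140278_ag), module TOR: toric valuations
-/

set_option autoImplicit false

open scoped BigOperators
open MvPolynomial

namespace Pool.Agent.Helper99.CO

open Pool.Agent.Helper53.CX Pool.Agent.Helper83.CO

/-- the order of a polynomial along a toric valuation -/
private theorem TOR_ord (hExt : StExt) (hMon : StMon) {n : ℕ} (b : Fin n → ℤ) (v : DivVal (Kn n))
    (hv : v.ord = monOrd b) (f : Pn n) (hf : f ≠ 0) :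
    (∀ m ∈ f.support, v.ord (algebraMap (Pn n) (Kn n) f) ≤ wt b m) ∧
      ∃ m ∈ f.support, v.ord (algebraMap (Pn n) (Kn n) f) = wt b m := by
  obtain ⟨h1, h2⟩ := hMon n b
  have h3 : v.ord (algebraMap (Pn n) (Kn n) f) = monO b f := by
    rw [hv]
    exact (hExt n (monO b) h1 h2).2.2.2 f hf
  have hs : f.support.Nonempty := by
    rw [Finset.nonempty_iff_ne_empty]
    exact fun h => hf (MvPolynomial.support_eq_empty.1 h)
  have h4 : monO b f = f.support.inf' hs (wt b) := by
    unfold monO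
    rw [dif_pos hs]
  rw [h3, h4]
  refine ⟨fun m hm => Finset.inf'_le _ hm, ?_⟩
  obtain ⟨m, hm, he⟩ := Finset.exists_mem_eq_inf' hs (wt b)
  exact ⟨m, hm, he⟩

private theorem TOR_cons {k : ℕ} (e : Fin (k + 1) →₀ ℕ) : Finsupp.cons (e 0) e.tail = e :=
  Finsupp.cons_tail e

/-- both cases at once -/
private theorem TOR_val (hPHI : StPHI) (hExt : StExt) (hMon : StMon) {k : ℕ}
    (b a : Fin (k + 1) → ℤ) (s : Option ℂ) (v : DivVal (Kn (k + 1))) (hv : v.ord = monOrd b)
    (hs : ∀ j : Fin k, a j.succ = b j.succ)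
    (hz : ∀ c : Polynomial ℂ, c ≠ 0 → ∃ i : ℕ, c.coeff i ≠ 0 ∧ a 0 * zs s c = b 0 * i ∧
      ∀ i' : ℕ, c.coeff i' ≠ 0 → a 0 * zs s c ≤ b 0 * i') : IsVal v s a := by
  obtain ⟨p1, -, p3, -, -⟩ := hPHI k
  intro f hf
  obtain ⟨h1, m₀, hm₀, h2⟩ := TOR_ord hExt hMon b v hv f hf
  have key : ∀ (m : Fin k →₀ ℕ), m ∈ (Phi k f).support →
      v.ord (algebraMap (Pn (k + 1)) (Kn (k + 1)) f) ≤
        pr a (zs s ((Phi k f).coeff m)) (fun j => (m j : ℤ)) := by
    intro m hm
    have hc : (Phi k f).coeff m ≠ 0 := MvPolynomial.mem_support_iff.1 hm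
    obtain ⟨i, hi, he, -⟩ := hz _ hc
    have hi' : Finsupp.cons i m ∈ f.support := by
      rw [MvPolynomial.mem_support_iff, ← p1]
      exact hi
    refine (h1 _ hi').trans (le_of_eq ?_)
    rw [p3 b i m]
    unfold pr
    rw [he]
    congr 1
    exact Finset.sum_congr rfl fun j _ => by rw [hs j]
  refine ⟨key, m₀.tail, ?_, ?_⟩
  · rw [MvPolynomial.mem_support_iff]
    intro h0
    have h3 := p1 f m₀.tail (m₀ 0)
    rw [h0, TOR_cons] at h3
    exact (MvPolynomial.mem_support_iff.1 hm₀) (by rw [← h3]; simp)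
  · have hco : ((Phi k f).coeff m₀.tail).coeff (m₀ 0) ≠ 0 := by
      rw [p1, TOR_cons]
      exact MvPolynomial.mem_support_iff.1 hm₀
    have hc : (Phi k f).coeff m₀.tail ≠ 0 := by
      intro h0
      rw [h0] at hco
      exact hco (by simp)
    have hmem : m₀.tail ∈ (Phi k f).support := MvPolynomial.mem_support_iff.2 hc
    refine le_antisymm (key _ hmem) ?_
    obtain ⟨i, -, -, hle⟩ := hz _ hc
    have h5 := hle (m₀ 0) hco
    have h6 : wt b m₀ = b 0 * (m₀ 0 : ℤ) + ∑ j : Fin k, b j.succ * (m₀.tail j : ℤ) := by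
      have := p3 b (m₀ 0) m₀.tail
      rw [TOR_cons] at this
      exact this
    rw [h2, h6]
    unfold pr
    have h7 : ∑ j : Fin k, a j.succ * ((m₀.tail j : ℕ) : ℤ)
        = ∑ j : Fin k, b j.succ * ((m₀.tail j : ℕ) : ℤ) :=
      Finset.sum_congr rfl fun j _ => by rw [hs j]
    rw [h7]
    linarith

theorem hTOR (hPHI : StPHI) (hUNI : StUNI) (hExt : StExt) (hMon : StMon) (hTorV : StTorV) :
    StTOR := by
  intro k
  have A1 : ∀ (v : DivVal (Kn (k + 1))) (b : Fin (k + 1) → ℤ), v.ord = monOrd b → 0 ≤ b 0 →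
      IsVal v (some 0) b := by
    intro v b hv hb
    refine TOR_val hPHI hExt hMon b b (some 0) v hv (fun j => rfl) ?_
    intro c hc
    have hz : zs (some 0) c = (c.natTrailingDegree : ℤ) := by
      show ((c.rootMultiplicity 0 : ℕ) : ℤ) = _
      rw [Polynomial.rootMultiplicity_eq_natTrailingDegree']
    refine ⟨c.natTrailingDegree, ?_, ?_, ?_⟩
    · exact Polynomial.trailingCoeff_nonzero_iff_nonzero.2 hc
    · rw [hz]
    · intro i' hi'
      rw [hz]
      refine mul_le_mul_of_nonneg_left ?_ hb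
      exact_mod_cast Polynomial.natTrailingDegree_le_of_ne_zero hi'
  have A2 : ∀ (v : DivVal (Kn (k + 1))) (b : Fin (k + 1) → ℤ), v.ord = monOrd b → b 0 ≤ 0 →
      IsVal v none (Function.update b 0 (- b 0)) := by
    intro v b hv hb
    refine TOR_val hPHI hExt hMon b _ none v hv (fun j => ?_) ?_
    · rw [Function.update_of_ne (Fin.succ_ne_zero j)]
    · intro c hc
      have hz : zs none c = - (c.natDegree : ℤ) := rfl
      rw [Function.update_self, hz]
      refine ⟨c.natDegree, ?_, ?_, ?_⟩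
      · exact Polynomial.leadingCoeff_ne_zero.2 hc
      · ring
      · intro i' hi'
        have h1 : (i' : ℤ) ≤ c.natDegree := by
          exact_mod_cast Polynomial.le_natDegree_of_ne_zero hi'
        nlinarith
  intro v
  refine ⟨A1 v, A2 v, ?_, ?_⟩
  · intro a u hu ha hv
    obtain ⟨v', hv'⟩ := hTorV (k + 1) a u hu
    have h1 := A1 v' a hv' ha
    have h2 := (hUNI k).1 (some 0) a v v' hv h1
    rw [h2, hv']
  · intro a u hu ha hv
    have hu' : ∑ j, (Function.update a 0 (- a 0)) j * (Function.update u 0 (- u 0)) j = 1 := by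
      rw [← hu]
      refine Finset.sum_congr rfl fun j _ => ?_
      by_cases hj : j = 0
      · subst hj
        rw [Function.update_self, Function.update_self]
        ring
      · rw [Function.update_of_ne hj, Function.update_of_ne hj]
    obtain ⟨v', hv'⟩ := hTorV (k + 1) _ _ hu'
    have h1 := A2 v' _ hv' (by rw [Function.update_self]; linarith)
    rw [Function.update_self, neg_neg, Function.update_idem, Function.update_eq_self] at h1
    have h2 := (hUNI k).1 none a v v' hv h1
    rw [h2, hv']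

end Pool.Agent.Helper99.CO
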